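import Pool.Agent.N522.SZ.Equiv

/-!
# `MP_f3836a_nt`: `s = 0` for all schemes and all integers `s ≤ 0`
-/

namespace Pool.Agent.Results.MP_f3836a_nt.AllNonPositiveIntegers

open Pool.Agent.N522.SZ

/-- Let `X` be such that its zeta function has a meromorphic continuation to `ℂ` and its rational
motivic cohomology is finite-dimensional in all weights `n ≥ d`.  Q1 holds for all products
`X × ℙ^r`, `r ≥ 0`, if and only if Soulé's formula holds for `X` at all integers `s = -m ≤ 0`. -/
theorem result (T : Theory) (hT : Facts T) (P : T.Obj → ℕ → T.Obj) (hP : IsPr T P) :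
    ∀ X, Hyp T X → ((∀ r, Formula T (P X r) 0) ↔ ∀ m, Formula T X m) :=
  fun X hX => formula_iff T hT P hP X hX

end Pool.Agent.Results.MP_f3836a_nt.AllNonPositiveIntegers
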