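import Pool.Agent.N522.SZ.Main

/-!
# `MP_f3836a_nt`: Soulé's formula for a class of arithmetic schemes
-/

namespace Pool.Agent.Results.MP_f3836a_nt.GeneratedClass

open Pool.Agent.N522.SZ

/-- Soulé's formula (with the meromorphic continuation and the finiteness of rational motivic
cohomology, which Q1 assumes), at `s = 0` and at all negative integers, holds for all `X` in the
smallest class of regular connected schemes, projective over `ℤ`, that contains the spectra of
rings of integers of number fields and the smooth projective varieties of abelian type over finite
fields, and is closed under relatively cellular schemes and Severi-Brauer schemes, blow-ups and
blow-downs with centres in the class. -/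
theorem result (T : Theory) (hT : Facts T) : ∀ X, Gen T X → Soule T X :=
  main T hT

end Pool.Agent.Results.MP_f3836a_nt.GeneratedClass
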