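import Pool.Agent.N41.RM.SchZ

/-!
# Soulé's conjecture on the order of the zeta function at `s = 0` in terms of the numbers of points

Let `X` be a scheme of finite type over `ℤ` (as a regular scheme flat and projective over `ℤ`) and
`ζ(X, s) = ∏_x (1 - N(x)^{-s})⁻¹` its zeta function, the product over the closed points.  We assume that
`ζ(X, s)` has a continuation along the real axis up to the real point `a` (`a = 0` in the problem),
meromorphic at the real points.  For a prime number `p` and `m ≥ 1` let `#X(F_{p^m})` be the number of the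
points of `X` over the field with `p^m` elements, and for `γ > π/2` put

`W_γ(T) = ∑_p ∑_{m ≥ 1} #X(F_{p^m}) / (m p^{ma}) · exp(iγ m log p / T) / Γ(1 + m log p / T)`,

an absolutely convergent series for every `T > 0`.  Then, without any hypothesis on the zeros and on the
poles of `ζ(X, s)` outside of the real axis,

`W_γ(T) = -r (log T - Λ_γ) + log |l| - π e i + O(1/T)`,

where `r` is the order of `ζ(X, s)` at `a`, `l` its leading coefficient, a real number of the sign `(-1)^e`,
and `e` the number of the real zeros minus the number of the real poles `> a`.  So for every integer `ρ` (as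
the alternating sum of the dimensions of the motivic cohomology groups in Soulé's conjecture) the equality
`ord_{s=0} ζ(X, s) = ρ` is equivalent to `-Re W_γ(T) / log T → ρ`, to the same limit along one sequence
`T_k → ∞`, and to the convergence of `Re W_γ(T) + ρ log T`.
-/

set_option autoImplicit false

namespace Pool.Agent.Results.MP_f3836a_nt.OrderFromPointCounts

open Filter Topology CategoryTheory AlgebraicGeometry

/-- The closed points of `X`. -/
abbrev ClosedPoint (X : Scheme.{0}) : Type := {x : X // IsClosed ({x} : Set X)}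

/-- The number `N(x)` of the elements of the residue field of a point `x`. -/
noncomputable def norm {X : Scheme.{0}} (x : X) : ℕ := Nat.card (X.residueField x)

/-- `F` is a continuation of `ζ(X, s)` along the real axis up to the real point `a`, meromorphic at all
real points `x ≥ a`; for large `Re s` it is given by the Euler product over the closed points of `X`. -/
def IsContinuation (X : Scheme.{0}) (a : ℝ) (F : ℂ → ℂ) : Prop :=
  (∀ x : ℝ, a ≤ x → MeromorphicAt F (x : ℂ)) ∧
    ∃ σ₁ : ℝ, ∀ s : ℂ, σ₁ < s.re →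
      HasProd (fun x : ClosedPoint X => (1 - (norm x.1 : ℂ) ^ (-s))⁻¹) (F s)

instance primeFact (p : Nat.Primes) : Fact (p : ℕ).Prime := ⟨p.2⟩

/-- The number of the points of `X` over the field with `p^m` elements. -/
noncomputable def points (X : Scheme.{0}) (p : Nat.Primes) (m : ℕ) : ℕ :=
  Nat.card (Spec (CommRingCat.of (GaloisField p m)) ⟶ X)

/-- The term of `W_γ(T)` for the prime number `p = c.1` and `m = c.2 + 1`. -/
noncomputable def term (X : Scheme.{0}) (a γ T : ℝ) (c : Nat.Primes × ℕ) : ℂ :=
  ((points X c.1 (c.2 + 1) / ((c.2 + 1) * (((c.1 : ℕ) : ℝ) ^ (c.2 + 1)) ^ a) : ℝ) : ℂ) *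
    (Complex.exp ((γ * ((c.2 + 1) * Real.log (c.1 : ℕ)) / T : ℝ) * Complex.I) /
      (Real.Gamma (1 + (c.2 + 1) * Real.log (c.1 : ℕ) / T) : ℂ))

/-- `W_γ(T)`. -/
noncomputable def W (X : Scheme.{0}) (a γ T : ℝ) : ℂ := ∑' c : Nat.Primes × ℕ, term X a γ T c

/-- `Λ_γ = ∫_0^∞ (e^{-t} - e^{iγt} / Γ(1 + t)) dt / t`. -/
noncomputable def Lam (γ : ℝ) : ℂ := ∫ t in Set.Ioi (0 : ℝ),
  (Complex.exp (-(t : ℂ)) - Complex.exp ((γ * t : ℝ) * Complex.I) * ((Real.Gamma (1 + t))⁻¹ : ℝ)) / t

/-- The number of the real zeros `> a` of `F` minus the number of its real poles `> a`, with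
multiplicities. -/
noncomputable def excess (F : ℂ → ℂ) (a : ℝ) : ℤ :=
  ∑ᶠ σ ∈ Set.Ioi a, (meromorphicOrderAt F (σ : ℂ)).untop₀

/-- **The order and the leading coefficient of `ζ(X, s)` at a real point from the numbers of points.**
Let `X` be a scheme of finite type over `ℤ`, `a` a real number (`a = 0` in the problem), `F` a continuation
of `ζ(X, s)` along the real axis up to `a`, and `γ > π/2`.  Then

* `W_γ(T)` converges absolutely for `T > 0`;
* `F` has an order `r` and a real leading coefficient `l` at `a`, `(-1)^e l > 0`, and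
  `W_γ(T) = -r (log T - Λ_γ) + log |l| - π e i + O(1/T)`;
* for every integer `ρ` the assertions `ord_{s=a} F = ρ`, `-Re W_γ(T) / log T → ρ` as `T → ∞`,
  `-Re W_γ(T_k) / log T_k → ρ` for one sequence `T_k → ∞`, and the convergence of
  `Re W_γ(T) + ρ log T` are equivalent. -/
theorem result (X : Scheme.{0}) (f : X ⟶ Spec (CommRingCat.of ℤ)) [LocallyOfFiniteType f]
    [QuasiCompact f] (a : ℝ) (F : ℂ → ℂ) (hF : IsContinuation X a F) (γ : ℝ)
    (hγ : Real.pi / 2 < γ) :
    (∀ T : ℝ, 0 < T → Summable fun c => ‖term X a γ T c‖) ∧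
    (∃ (r : ℤ) (l : ℝ), meromorphicOrderAt F a = r ∧ meromorphicTrailingCoeffAt F a = l ∧
      0 < (-1 : ℝ) ^ excess F a * l ∧
      (fun T : ℝ => W X a γ T - (-r * (Real.log T - Lam γ) + Real.log |l| -
        Real.pi * excess F a * Complex.I)) =O[atTop] (fun T : ℝ => 1 / T)) ∧
    ∀ ρ : ℤ, List.TFAE [
      meromorphicOrderAt F a = ρ,
      Tendsto (fun T : ℝ => -(W X a γ T).re / Real.log T) atTop (𝓝 ρ),
      ∃ t : ℕ → ℝ, Tendsto t atTop atTop ∧
        Tendsto (fun k => -(W X a γ (t k)).re / Real.log (t k)) atTop (𝓝 ρ),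
      ∃ B : ℝ, Tendsto (fun T : ℝ => (W X a γ T).re + ρ * Real.log T) atTop (𝓝 B)] := by
  have hX : CompactSpace X := QuasiCompact.compactSpace_of_compactSpace f
  have hfin : ∀ y : ClosedPoint X, Finite (X.residueField y.1) :=
    fun y => Pool.Agent.N41.RM.SchZ.finite_cl f y
  obtain ⟨C, n, hC⟩ := Pool.Agent.N41.RM.SchZ.card_le f
  have e := fun (F : Type) [Field F] [Finite F] => Pool.Agent.N41.RM.SchZ.pntEquiv f F
  have B : Pool.Agent.N41.RM.Fam.Bdd (fun y : ClosedPoint X => X.residueField y.1) C n :=
    { fin := fun F _ _ => by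
        have := (hC F).1
        exact Finite.of_equiv _ (Pool.Agent.N41.RM.SchZ.pntEquiv f F)
      le := fun F _ _ => by
        rw [← Nat.card_congr (Pool.Agent.N41.RM.SchZ.pntEquiv f F)]
        exact (hC F).2 }
  obtain ⟨hmer, σ₁, hprod⟩ := hF
  obtain ⟨hs, r, l, e1, e2, e3, e4⟩ := B.law a hmer (σ₁ := σ₁) hprod hγ
  have hpts : ∀ c : Nat.Primes × ℕ, points X c.1 (c.2 + 1) =
      Pool.Agent.N41.RM.Fam.npt (fun y : ClosedPoint X => X.residueField y.1) c := by
    intro c
    have hF : Nat.card (GaloisField c.1 (c.2 + 1)) = (c.1 : ℕ) ^ (c.2 + 1) :=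
      GaloisField.card _ _ (by omega)
    rw [B.npt_eq c hF]
    exact Nat.card_congr (Pool.Agent.N41.RM.SchZ.pntEquiv f (GaloisField c.1 (c.2 + 1)))
  have hterm : ∀ T c, term X a γ T c =
      Pool.Agent.N41.RM.Fam.fterm
        (Pool.Agent.N41.RM.Fam.npt (fun y : ClosedPoint X => X.residueField y.1)) a γ T c := by
    intro T c
    unfold term Pool.Agent.N41.RM.Fam.fterm
    rw [hpts]
  have hL : Lam γ = Pool.Agent.W187.UR.Lam γ := rfl
  have hlaw : (fun T : ℝ => W X a γ T - (-r * (Real.log T - Lam γ) + Real.log |l| -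
        Real.pi * excess F a * Complex.I)) =O[atTop] (fun T : ℝ => 1 / T) := by
    refine e4.congr_left fun T => ?_
    unfold W
    rw [hL, tsum_congr (hterm T)]
    rfl
  set K : ℂ := -r * (-Lam γ) + Real.log |l| - Real.pi * excess F a * Complex.I with hK
  have h0 : Tendsto (fun T : ℝ => W X a γ T - (-r * (Real.log T - Lam γ) + Real.log |l| -
      Real.pi * excess F a * Complex.I)) atTop (𝓝 0) := by
    refine hlaw.trans_tendsto ?_
    exact tendsto_const_nhds.div_atTop tendsto_id
  -- the real part
  have h1 : Tendsto (fun T : ℝ => (W X a γ T).re + r * Real.log T) atTop (𝓝 K.re) := by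
    have h3 := (Complex.continuous_re.tendsto 0).comp h0
    have h4 := h3.add_const K.re
    rw [Complex.zero_re, zero_add] at h4
    refine h4.congr fun T => ?_
    simp only [Function.comp_apply]
    rw [← Complex.add_re]
    have h5 : W X a γ T - (-r * (Real.log T - Lam γ) + Real.log |l| -
      Real.pi * excess F a * Complex.I) + K = W X a γ T + ((r * Real.log T : ℝ) : ℂ) := by
      rw [hK]
      push_cast
      ring
    rw [h5, Complex.add_re, Complex.ofReal_re]
  have hre : Tendsto (fun T : ℝ => -(W X a γ T).re / Real.log T) atTop (𝓝 r) := by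
    have h2 := (h1.neg.div_atTop Real.tendsto_log_atTop).add_const (r : ℝ)
    rw [zero_add] at h2
    refine h2.congr' ?_
    filter_upwards [eventually_gt_atTop 1] with T hT
    have hlog : Real.log T ≠ 0 := (Real.log_pos hT).ne'
    field_simp
    ring
  refine ⟨fun T hT => (hs T hT).congr fun c => by rw [hterm], ⟨r, l, e1, e2, e3, hlaw⟩,
    fun ρ => ?_⟩
  tfae_have 1 → 2 := by
    intro h3
    rw [e1] at h3
    have h5 : r = ρ := by exact_mod_cast h3
    subst h5
    exact hre
  tfae_have 2 → 3 := by
    intro h3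
    exact ⟨fun k => (k : ℝ), tendsto_natCast_atTop_atTop, h3.comp tendsto_natCast_atTop_atTop⟩
  tfae_have 3 → 1 := by
    rintro ⟨t, ht, h3⟩
    have h4 := tendsto_nhds_unique h3 (hre.comp ht)
    have h5 : ρ = r := by exact_mod_cast h4
    rw [e1, h5]
  tfae_have 1 → 4 := by
    intro h3
    rw [e1] at h3
    have h5 : r = ρ := by exact_mod_cast h3
    subst h5
    exact ⟨K.re, h1⟩
  tfae_have 4 → 2 := by
    rintro ⟨B', h3⟩
    have h2 := (h3.neg.div_atTop Real.tendsto_log_atTop).add_const (ρ : ℝ)
    rw [zero_add] at h2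
    refine h2.congr' ?_
    filter_upwards [eventually_gt_atTop 1] with T hT
    have hlog : Real.log T ≠ 0 := (Real.log_pos hT).ne'
    field_simp
    ring
  tfae_finish

end Pool.Agent.Results.MP_f3836a_nt.OrderFromPointCounts
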